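import Mathlib

/-! Hilbert cubes in sets of integers (power saving). -/

namespace Pool.Agent.TH975.LR

/-- the values of the Hilbert cube with base point `a` and differences `ds` -/
def hv : List ℕ → ℤ → List ℤ
  | [], a => [a]
  | d :: l, a => hv l a ++ hv l (a + d)

theorem hv_shift (l : List ℕ) : ∀ (a b k : ℤ), k ∈ hv l a → k + b ∈ hv l (a + b) := by
  induction l with
  | nil => intro a b k hk; simp only [hv, List.mem_singleton] at hk ⊢; rw [hk]
  | cons d l ih =>
    intro a b k hk
    simp only [hv, List.mem_append] at hk ⊢
    rcases hk with hk | hk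
    · exact Or.inl (ih _ _ _ hk)
    · right
      have := ih _ b _ hk
      rwa [show a + b + d = a + d + b by ring]

theorem pairs_card (A : Finset ℤ) :
    2 * ((A ×ˢ A).filter fun e => e.1 < e.2).card + A.card = A.card * A.card := by
  classical
  have h1 : ((A ×ˢ A).filter fun e => e.2 < e.1).card =
      ((A ×ˢ A).filter fun e => e.1 < e.2).card := by
    apply Finset.card_bij (fun e _ => (e.2, e.1))
    · intro e he
      rw [Finset.mem_filter, Finset.mem_product] at he ⊢
      exact ⟨⟨he.1.2, he.1.1⟩, he.2⟩
    · intro e _ e' _ h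
      have h2 := Prod.mk.inj h
      exact Prod.ext h2.2 h2.1
    · intro e he
      rw [Finset.mem_filter, Finset.mem_product] at he
      exact ⟨(e.2, e.1), by
        rw [Finset.mem_filter, Finset.mem_product]
        exact ⟨⟨he.1.2, he.1.1⟩, he.2⟩, rfl⟩
  have h2 : ((A ×ˢ A).filter fun e => e.1 = e.2).card = A.card := by
    apply Finset.card_bij (fun e _ => e.1)
    · intro e he
      rw [Finset.mem_filter, Finset.mem_product] at he
      exact he.1.1
    · intro e he e' he' h
      rw [Finset.mem_filter] at he he'
      exact Prod.ext h (by rw [← he.2, ← he'.2]; exact h)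
    · intro x hx
      exact ⟨(x, x), by
        rw [Finset.mem_filter, Finset.mem_product]
        exact ⟨⟨hx, hx⟩, rfl⟩, rfl⟩
  have h3 : (A ×ˢ A) = ((A ×ˢ A).filter fun e => e.1 < e.2) ∪
      (((A ×ˢ A).filter fun e => e.2 < e.1) ∪ ((A ×ˢ A).filter fun e => e.1 = e.2)) := by
    ext e
    simp only [Finset.mem_union, Finset.mem_filter]
    rcases lt_trichotomy e.1 e.2 with h | h | h
    · exact ⟨fun he => Or.inl ⟨he, h⟩, fun he => by
        rcases he with he | he | he
        · exact he.1
        · exact he.1
        · exact he.1⟩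
    · exact ⟨fun he => Or.inr (Or.inr ⟨he, h⟩), fun he => by
        rcases he with he | he | he
        · exact he.1
        · exact he.1
        · exact he.1⟩
    · exact ⟨fun he => Or.inr (Or.inl ⟨he, h⟩), fun he => by
        rcases he with he | he | he
        · exact he.1
        · exact he.1
        · exact he.1⟩
  have h4 : (A ×ˢ A).card = ((A ×ˢ A).filter fun e => e.1 < e.2).card +
      (((A ×ˢ A).filter fun e => e.2 < e.1).card + ((A ×ˢ A).filter fun e => e.1 = e.2).card) := by
    conv_lhs => rw [h3]
    rw [Finset.card_union_of_disjoint, Finset.card_union_of_disjoint]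
    · rw [Finset.disjoint_left]
      intro e he he'
      rw [Finset.mem_filter] at he he'
      have := he'.2; have := he.2; omega
    · rw [Finset.disjoint_left]
      intro e he he'
      rw [Finset.mem_union, Finset.mem_filter, Finset.mem_filter] at he'
      rw [Finset.mem_filter] at he
      rcases he' with he' | he'
      · have := he'.2; have := he.2; omega
      · have := he'.2; have := he.2; omega
  rw [Finset.card_product, h1, h2] at h4
  omega

theorem hilbert : ∀ (K : ℕ) (A : Finset ℤ) (M : ℤ) (N : ℕ), A ⊆ Finset.Ioc M (M + N) →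
    4 * (N : ℝ) ^ (1 - 1 / 2 ^ K : ℝ) < A.card →
    ∃ (a : ℤ) (ds : List ℕ), ds.length = K + 1 ∧ (∀ d ∈ ds, 1 ≤ d) ∧ ∀ k ∈ hv ds a, k ∈ A := by
  classical
  intro K
  induction K with
  | zero =>
    intro A M N _ hcard
    have h1 : (4 : ℝ) < A.card := by
      simpa using hcard
    have h2 : 1 < A.card := by
      have : (4 : ℕ) < A.card := by exact_mod_cast h1
      omega
    obtain ⟨x, hx, y, hy, hxy⟩ := Finset.one_lt_card.1 h2
    rcases lt_or_gt_of_ne hxy with h | h
    · refine ⟨x, [(y - x).toNat], rfl, ?_, ?_⟩
      · intro d hd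
        rw [List.mem_singleton] at hd
        omega
      · intro k hk
        simp only [hv, List.mem_append, List.mem_singleton] at hk
        rcases hk with rfl | rfl
        · exact hx
        · have : x + ((y - x).toNat : ℤ) = y := by omega
          rw [this]; exact hy
    · refine ⟨y, [(x - y).toNat], rfl, ?_, ?_⟩
      · intro d hd
        rw [List.mem_singleton] at hd
        omega
      · intro k hk
        simp only [hv, List.mem_append, List.mem_singleton] at hk
        rcases hk with rfl | rfl
        · exact hy
        · have : y + ((x - y).toNat : ℤ) = x := by omega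
          rw [this]; exact hx
  | succ K ih =>
    intro A M N hA hcard
    by_cases hN : N = 0
    · subst hN
      have : A = ∅ := by
        rw [← Finset.subset_empty]
        refine hA.trans ?_
        simp
      rw [this, Finset.card_empty] at hcard
      exfalso
      have h0 : (0 : ℝ) ≤ 4 * ((0 : ℕ) : ℝ) ^ (1 - 1 / 2 ^ (K + 1) : ℝ) := by positivity
      push_cast at hcard h0
      linarith
    have hN1 : (1 : ℝ) ≤ N := by exact_mod_cast Nat.one_le_iff_ne_zero.2 hN
    have hN0 : (0 : ℝ) < N := by linarith
    let Ad : ℕ → Finset ℤ := fun d => A.filter fun x => x + d ∈ A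
    by_cases h : ∃ d, 1 ≤ d ∧ 4 * (N : ℝ) ^ (1 - 1 / 2 ^ K : ℝ) < (Ad d).card
    · obtain ⟨d, hd, hd'⟩ := h
      obtain ⟨a, ds, h1, h2, h3⟩ := ih (Ad d) M N ((Finset.filter_subset _ _).trans hA) hd'
      refine ⟨a, d :: ds, by rw [List.length_cons, h1], ?_, ?_⟩
      · intro d' hd''
        rcases List.mem_cons.1 hd'' with h4 | h4
        · rw [h4]; exact hd
        · exact h2 d' h4
      · intro k hk
        simp only [hv, List.mem_append] at hk
        rcases hk with hk | hk
        · exact (Finset.mem_filter.1 (h3 k hk)).1
        · have h5 := hv_shift ds (a + d) (-d) k hk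
          rw [add_neg_cancel_right] at h5
          have h6 := (Finset.mem_filter.1 (h3 _ h5)).2
          rwa [neg_add_cancel_right] at h6
    · exfalso
      push Not at h
      have h1 : ((A ×ˢ A).filter fun e => e.1 < e.2).card ≤
          ∑ d ∈ Finset.Icc 1 N, (Ad d).card := by
        rw [← Finset.card_sigma]
        apply Finset.card_le_card_of_injOn (fun e => (⟨(e.2 - e.1).toNat, e.1⟩ : Σ _ : ℕ, ℤ))
        · intro e he
          rw [Finset.mem_coe, Finset.mem_filter, Finset.mem_product] at he
          rw [Finset.mem_coe, Finset.mem_sigma, Finset.mem_Icc]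
          have h2 := Finset.mem_Ioc.1 (hA he.1.1)
          have h3 := Finset.mem_Ioc.1 (hA he.1.2)
          have h4 := he.2
          refine ⟨⟨by dsimp only; omega, by dsimp only; omega⟩, ?_⟩
          rw [Finset.mem_filter]
          refine ⟨he.1.1, ?_⟩
          have : e.1 + ((e.2 - e.1).toNat : ℤ) = e.2 := by omega
          dsimp only
          rw [this]
          exact he.1.2
        · intro e he e' he' hee
          rw [Finset.mem_coe, Finset.mem_filter] at he he'
          have h2 := he.2
          have h3 := he'.2
          have h4 : e.1 = e'.1 := by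
            have := (Sigma.mk.inj_iff.1 hee).2
            exact eq_of_heq this
          have h5 : (e.2 - e.1).toNat = (e'.2 - e'.1).toNat := (Sigma.mk.inj_iff.1 hee).1
          refine Prod.ext h4 ?_
          omega
      have h2 := pairs_card A
      have h3 : ((∑ d ∈ Finset.Icc 1 N, (Ad d).card : ℕ) : ℝ) ≤
          N * (4 * (N : ℝ) ^ (1 - 1 / 2 ^ K : ℝ)) := by
        push_cast
        refine (Finset.sum_le_sum fun d hd => h d (Finset.mem_Icc.1 hd).1).trans ?_
        rw [Finset.sum_const, Nat.card_Icc, nsmul_eq_mul]
        simp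
      have h4 : (((A ×ˢ A).filter fun e => e.1 < e.2).card : ℝ) ≤
          N * (4 * (N : ℝ) ^ (1 - 1 / 2 ^ K : ℝ)) := le_trans (by exact_mod_cast h1) h3
      have h5 : 2 * (((A ×ˢ A).filter fun e => e.1 < e.2).card : ℝ) + A.card =
          (A.card : ℝ) * A.card := by exact_mod_cast h2
      set X : ℝ := (N : ℝ) ^ (1 - 1 / 2 ^ (K + 1) : ℝ) with hX
      have hX2 : X * X = N * (N : ℝ) ^ (1 - 1 / 2 ^ K : ℝ) := by
        rw [hX, ← Real.rpow_add hN0]
        conv_rhs => rw [← Real.rpow_one (N : ℝ), ← Real.rpow_mul hN0.le, one_mul,
          ← Real.rpow_add hN0]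
        congr 1
        rw [pow_succ]
        field_simp
        ring
      have hX1 : 1 ≤ X := by
        apply Real.one_le_rpow hN1
        have : (1 : ℝ) / 2 ^ (K + 1) ≤ 1 := by
          rw [div_le_one (by positivity)]
          exact one_le_pow₀ (by norm_num)
        linarith
      have h6 : (A.card : ℝ) * A.card - A.card ≤ 8 * (X * X) := by
        rw [hX2]; linarith
      nlinarith

end Pool.Agent.TH975.LR
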