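import Pool.Agent.TH975.EC.Core
import Pool.Agent.TH975.LR.Hilb

/-! Linear recurrence sequences. -/

namespace Pool.Agent.TH975.EC

open Polynomial Module Pool.Agent.TH975.EP Pool.Agent.TH975.LR

/-- the coefficient of `X ^ m` is the first bad one from above -/
def Bm (P : ℂ[X]) (m : ℕ) : Prop := P.coeff m ∉ LL ∧ ∀ j, m < j → P.coeff j ∈ LL

theorem sft_coeff_sum (x : ℂ) (P : ℂ[X]) (m : ℕ) : (sft x P).coeff m =
    ∑ n ∈ Finset.range (P.natDegree + 2), (((n + m).choose m : ℕ) : ℂ) * P.coeff (n + m) * x ^ n := by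
  have h1 : sft x P = taylor x P := by rw [taylor_apply]; rfl
  rw [h1, taylor_coeff, eval_eq_sum_range' (n := P.natDegree + 2)]
  · apply Finset.sum_congr rfl
    intro n _
    rw [hasseDeriv_coeff]
  · have := natDegree_hasseDeriv_le P m
    omega

theorem nat_QB (n : ℕ) : (n : ℂ) ∈ QB := by
  rw [mem_QB]; exact_mod_cast isAlgebraic_natCast (R := ℚ) (A := ℂ) n

theorem sft_A {x : ℂ} (hx : x ∈ QB) {P : ℂ[X]} {m : ℕ} (h : ∀ j, m < j → P.coeff j ∈ LL) :
    (sft x P).coeff m - P.coeff m ∈ LL := by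
  rw [sft_coeff_sum, Finset.sum_range_succ']
  have h1 : (((0 + m).choose m : ℕ) : ℂ) * P.coeff (0 + m) * x ^ 0 = P.coeff m := by simp
  rw [h1, add_sub_cancel_right]
  apply Submodule.sum_mem
  intro n _
  rw [mul_comm ((_ : ℂ) * _), ← mul_assoc]
  exact LL_mul (mul_mem (pow_mem hx _) (nat_QB _)) (h _ (by omega))

theorem sft_B {x y : ℂ} (hx : x ∈ QB) (hy : y ∈ QB) {P : ℂ[X]} {m : ℕ}
    (h : ∀ j, m + 1 < j → P.coeff j ∈ LL) :
    (sft x P).coeff m - (sft y P).coeff m - ((m + 1 : ℕ) : ℂ) * (x - y) * P.coeff (m + 1) ∈ LL := by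
  rw [sft_coeff_sum, sft_coeff_sum, Finset.sum_range_succ', Finset.sum_range_succ',
    Finset.sum_range_succ' _ (P.natDegree + 1), Finset.sum_range_succ' _ P.natDegree]
  have h1 : (((0 + 1 + m).choose m : ℕ) : ℂ) = ((m + 1 : ℕ) : ℂ) := by
    congr 1
    rw [zero_add, add_comm, Nat.choose_succ_self_right]
  have h2 : (0 : ℕ) + 1 + m = m + 1 := by ring
  rw [h1, h2]
  have h3 : ∀ w : ℂ, w ∈ QB → ∑ n ∈ Finset.range P.natDegree,
      (((n + 1 + 1 + m).choose m : ℕ) : ℂ) * P.coeff (n + 1 + 1 + m) * w ^ (n + 1 + 1) ∈ LL := by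
    intro w hw
    apply Submodule.sum_mem
    intro n _
    rw [mul_comm ((_ : ℂ) * _), ← mul_assoc]
    exact LL_mul (mul_mem (pow_mem hw _) (nat_QB _)) (h _ (by omega))
  have h4 := Submodule.sub_mem _ (h3 x hx) (h3 y hy)
  convert h4 using 1
  ring

theorem dif_coeff_gen (A B x y τ : ℂ) (P : ℂ[X]) (m : ℕ) : (dif A B x y τ P).coeff m =
    A * (sft x P).coeff m - τ * (B * (sft y P).coeff m) := by
  unfold dif
  rw [coeff_sub, coeff_C_mul, coeff_C_mul, coeff_C_mul]

theorem Bm.dif1 {A B x y τ : ℂ} {P : ℂ[X]} {m : ℕ} (hA : A ∈ QB) (hB : B ∈ QB)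
    (hτ : τ ∈ QB) (hx : x ∈ QB) (hy : y ∈ QB) (hne : A ≠ τ * B) (h : Bm P m) :
    Bm (dif A B x y τ P) m := by
  obtain ⟨h0, h1⟩ := h
  refine ⟨?_, ?_⟩
  · intro hcon
    apply h0
    rw [dif_coeff_gen] at hcon
    have e1 := LL_mul hA (sft_A hx h1)
    have e2 := LL_mul (mul_mem hτ hB) (sft_A hy h1)
    have e3 := Submodule.sub_mem _ hcon (Submodule.sub_mem _ e1 e2)
    have e4 := LL_mul (inv_mem (sub_mem hA (mul_mem hτ hB))) e3
    have hγ0 : A - τ * B ≠ 0 := sub_ne_zero.2 hne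
    convert e4 using 1
    field_simp
    ring
  · intro j hj
    have h2 : ∀ i, j < i → P.coeff i ∈ LL := fun i hi => h1 i (by omega)
    have e1 := Submodule.add_mem _ (sft_A hx h2) (h1 j hj)
    have e2 := Submodule.add_mem _ (sft_A hy h2) (h1 j hj)
    rw [sub_add_cancel] at e1 e2
    rw [dif_coeff_gen]
    exact Submodule.sub_mem _ (LL_mul hA e1) (LL_mul hτ (LL_mul hB e2))

theorem Bm.dif2 {A B x y τ : ℂ} {P : ℂ[X]} {m : ℕ} (hA : A ∈ QB) (hA0 : A ≠ 0)
    (hx : x ∈ QB) (hy : y ∈ QB) (hxy : x ≠ y) (he : A = τ * B) (h : Bm P (m + 1)) :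
    Bm (dif A B x y τ P) m := by
  obtain ⟨h0, h1⟩ := h
  have key : ∀ j, (dif A B x y τ P).coeff j = A * ((sft x P).coeff j - (sft y P).coeff j) := by
    intro j
    rw [dif_coeff_gen, ← mul_assoc, ← he]
    ring
  refine ⟨?_, ?_⟩
  · intro hcon
    apply h0
    rw [key] at hcon
    have e1 := LL_mul (inv_mem hA) hcon
    rw [← mul_assoc, inv_mul_cancel₀ hA0, one_mul] at e1
    have e2 := Submodule.sub_mem _ e1 (sft_B hx hy h1)
    have e3 := LL_mul (inv_mem (mul_mem (nat_QB (m + 1)) (sub_mem hx hy))) e2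
    have hγ0 : ((m + 1 : ℕ) : ℂ) * (x - y) ≠ 0 :=
      mul_ne_zero (by exact_mod_cast Nat.succ_ne_zero m) (sub_ne_zero.2 hxy)
    convert e3 using 1
    rw [sub_sub_cancel, ← mul_assoc, inv_mul_cancel₀ hγ0, one_mul]
  · intro j hj
    have h2 : ∀ i, j < i → P.coeff i ∈ LL := fun i hi => h1 i (by omega)
    rw [key]
    have e1 := Submodule.sub_mem _ (sft_A hx h2) (sft_A hy h2)
    apply LL_mul hA
    convert e1 using 1
    ring

/-- numbers with algebraic logarithm and algebraic powers -/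
def AP (C : Finset ℂ) (S : ℂ → Prop) (v : ℝ) : Prop :=
  0 < v ∧ ((Real.log v : ℝ) : ℂ) ∈ QB ∧ ∀ c ∈ C, S c → pw c v ∈ QB

theorem AP.mul {C : Finset ℂ} {S : ℂ → Prop} {u v : ℝ} (hu : AP C S u) (hv : AP C S v) :
    AP C S (u * v) := by
  refine ⟨mul_pos hu.1 hv.1, ?_, ?_⟩
  · rw [Real.log_mul hu.1.ne' hv.1.ne']
    push_cast
    exact add_mem hu.2.1 hv.2.1
  · intro c hc hs
    rw [pw_mul c hu.1 hv.1]
    exact mul_mem (hu.2.2 c hc hs) (hv.2.2 c hc hs)

theorem vals_AP {C : Finset ℂ} {S : ℂ → Prop} : ∀ (l : List (ℝ × ℝ)),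
    (∀ e ∈ l, AP C S e.1 ∧ AP C S e.2) → ∀ a, AP C S a → ∀ v ∈ vals l a, AP C S v := by
  intro l
  induction l with
  | nil =>
    intro _ a ha v hv
    simp only [vals, List.mem_singleton] at hv
    rw [hv]; exact ha
  | cons e l ih =>
    intro hl a ha v hv
    obtain ⟨h1, h2⟩ := hl e (List.mem_cons_self ..)
    have hl' : ∀ e ∈ l, AP C S e.1 ∧ AP C S e.2 := fun e' he' => hl e' (List.mem_cons_of_mem _ he')
    simp only [vals, List.mem_append] at hv
    rcases hv with hv | hv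
    · exact ih hl' _ (ha.mul h1) v hv
    · exact ih hl' _ (ha.mul h2) v hv

theorem core_d (C : Finset ℂ) (S : ℂ → Prop) {c0 : ℂ} (hc0 : c0 ∈ C) :
    ∀ T : ℕ, ∀ Q : ℂ → ℂ[X], W C Q ≤ T → (∀ c ∈ C, Q c ≠ 0 → S c) → ∀ m, Bm (Q c0) m →
      ∀ l : List (ℝ × ℝ), (∀ e ∈ l, AP C S e.1 ∧ AP C S e.2 ∧ e.1 ≠ e.2 ∧ Sep C c0 e) →
      T ≤ l.length → ∀ a : ℝ, AP C S a → ∃ v ∈ vals l a, ev C Q v ∉ LL := by
  intro T
  induction T with
  | zero =>
    intro Q hW _ m hbd
    exfalso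
    have h1 : wt (Q c0) ≤ W C Q :=
      Finset.single_le_sum (f := fun c => wt (Q c)) (fun _ _ => Nat.zero_le _) hc0
    have h2 : Q c0 = 0 := wt_eq_zero.1 (by omega)
    apply hbd.1
    rw [h2, coeff_zero]; exact LL.zero_mem
  | succ T ih =>
    intro Q hW hS m hbd l hl hlen a ha
    have hQ0 : Q c0 ≠ 0 := by
      intro h2
      apply hbd.1
      rw [h2, coeff_zero]; exact LL.zero_mem
    by_cases h : ∃ c1 ∈ C, Q c1 ≠ 0 ∧ (c1 ≠ c0 ∨ (c1 = c0 ∧ 0 < m))
    · obtain ⟨c1, hc1, hQ1, hcase⟩ := h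
      obtain ⟨e, l', rfl⟩ : ∃ e l', l = e :: l' := by
        cases l with
        | nil => simp at hlen
        | cons e l' => exact ⟨e, l', rfl⟩
      obtain ⟨hP1, hP2, hne, hse⟩ := hl e (List.mem_cons_self ..)
      have hl' : ∀ e ∈ l', AP C S e.1 ∧ AP C S e.2 ∧ e.1 ≠ e.2 ∧ Sep C c0 e :=
        fun e' he' => hl e' (List.mem_cons_of_mem _ he')
      have he1 := hP1.1
      have he2 := hP2.1
      set τ : ℂ := pw c1 e.2 / pw c1 e.1 with hτ
      have hB : ∀ c : ℂ, pw c e.1 ≠ 0 := fun c => pw_ne c _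
      have hAB : pw c1 e.2 = τ * pw c1 e.1 := by
        rw [hτ, div_mul_cancel₀ _ (hB c1)]
      have hτa : τ ∈ QB := div_mem (hP2.2.2 c1 hc1 (hS c1 hc1 hQ1)) (hP1.2.2 c1 hc1 (hS c1 hc1 hQ1))
      have hlog : ((Real.log e.2 : ℝ) : ℂ) ≠ ((Real.log e.1 : ℝ) : ℂ) := by
        intro h1
        have h2 : Real.log e.2 = Real.log e.1 := by exact_mod_cast h1
        exact hne (Real.log_injOn_pos he1 he2 h2.symm)
      have hW' : W C (dQ e τ Q) ≤ T := by
        have h1 : W C (dQ e τ Q) < W C Q := by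
          apply Finset.sum_lt_sum
          · intro c _; exact dif_wt_le _ _ _ _ _ _
          · exact ⟨c1, hc1, dif_wt_lt hAB hQ1⟩
        omega
      have hS' : ∀ c ∈ C, dQ e τ Q c ≠ 0 → S c := by
        intro c hc hne
        apply hS c hc
        intro h0
        apply hne
        rw [← wt_eq_zero]
        have := dif_wt_le (pw c e.2) (pw c e.1) ((Real.log e.2 : ℝ) : ℂ)
          ((Real.log e.1 : ℝ) : ℂ) τ (Q c)
        rw [h0, wt_zero] at this
        unfold dQ
        rw [h0]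
        omega
      obtain ⟨m', hm'⟩ : ∃ m', Bm (dQ e τ Q c0) m' := by
        rcases hcase with hcase | ⟨hcase, h2⟩
        · refine ⟨m, ?_⟩
          apply Bm.dif1 (hP2.2.2 c0 hc0 (hS c0 hc0 hQ0)) (hP1.2.2 c0 hc0 (hS c0 hc0 hQ0)) hτa
            hP2.2.1 hP1.2.1 ?_ hbd
          intro h2
          apply hse c1 hc1 hcase
          have h9 := hB c1
          rw [h2, hτ]
          field_simp
        · subst hcase
          obtain ⟨n, rfl⟩ : ∃ n, m = n + 1 := ⟨m - 1, by omega⟩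
          exact ⟨n, Bm.dif2 (hP2.2.2 c1 hc0 (hS c1 hc0 hQ0)) (pw_ne _ _) hP2.2.1 hP1.2.1 hlog
            hAB hbd⟩
      obtain ⟨v, hv, hvL⟩ := ih (dQ e τ Q) hW' hS' m' hm' l' hl'
        (by rw [List.length_cons] at hlen; omega) a ha
      have hv0 := (vals_AP l' (fun e he => ⟨(hl' e he).1, (hl' e he).2.1⟩) a ha v hv).1
      obtain ⟨h5, h6⟩ := mem_vals_cons (e := e) hv
      rw [ev_dQ C Q he1 he2 τ hv0] at hvL
      by_cases h7 : ev C Q (e.2 * v) ∈ LL
      · refine ⟨_, h5, fun h8 => hvL (Submodule.sub_mem _ h7 (LL_mul hτa h8))⟩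
      · exact ⟨_, h6, h7⟩
    · push Not at h
      have hm : m = 0 := by
        have := (h c0 hc0 hQ0).2 rfl
        omega
      subst hm
      obtain ⟨v, hv⟩ := vals_nonempty l a
      obtain ⟨hv0, hv1, hv2⟩ := vals_AP l (fun e he => ⟨(hl e he).1, (hl e he).2.1⟩) a ha v hv
      refine ⟨v, hv, fun hcon => hbd.1 ?_⟩
      have h2 : ev C Q v = (Q c0).eval ((Real.log v : ℝ) : ℂ) * pw c0 v := by
        unfold ev
        apply Finset.sum_eq_single c0
        · intro c hc hne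
          have : Q c = 0 := by
            by_contra h3
            exact hne ((h c hc h3).1)
          rw [this, eval_zero, zero_mul]
        · intro h3; exact absurd hc0 h3
      rw [h2, mul_comm] at hcon
      have h3 := LL_mul (inv_mem (hv2 c0 hc0 (hS c0 hc0 hQ0))) hcon
      rw [← mul_assoc, inv_mul_cancel₀ (pw_ne _ _), one_mul, eval_eq_sum_range,
        Finset.sum_range_succ', pow_zero, mul_one] at h3
      have h4 : ∑ k ∈ Finset.range (Q c0).natDegree, (Q c0).coeff (k + 1) *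
          ((Real.log v : ℝ) : ℂ) ^ (k + 1) ∈ LL := by
        apply Submodule.sum_mem
        intro k _
        rw [mul_comm]
        exact LL_mul (pow_mem hv1 _) (hbd.2 _ (by omega))
      have h5 := Submodule.sub_mem _ h3 h4
      rwa [add_sub_cancel_left] at h5

/-- the sides of the cube belonging to the differences `ds` -/
noncomputable def sd (ds : List ℕ) : List (ℝ × ℝ) := ds.map (fun d : ℕ => ((1 : ℝ), Real.exp (d : ℝ)))

theorem vals_hv : ∀ (ds : List ℕ) (a : ℤ), ∀ v ∈ vals (sd ds) (Real.exp a),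
    ∃ k ∈ hv ds a, v = Real.exp k := by
  intro ds
  induction ds with
  | nil =>
    intro a v hv
    simp only [sd, List.map_nil, vals, List.mem_singleton] at hv
    exact ⟨a, by simp [Pool.Agent.TH975.LR.hv], hv⟩
  | cons d ds ih =>
    intro a v hv
    simp only [sd, List.map_cons, vals, List.mem_append] at hv
    rcases hv with hv | hv
    · rw [mul_one] at hv
      obtain ⟨k, hk, rfl⟩ := ih a v hv
      exact ⟨k, by simp only [Pool.Agent.TH975.LR.hv, List.mem_append]; exact Or.inl hk, rfl⟩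
    · rw [← Real.exp_add] at hv
      have h1 : (a : ℝ) + (d : ℝ) = ((a + d : ℤ) : ℝ) := by push_cast; ring
      rw [h1] at hv
      obtain ⟨k, hk, rfl⟩ := ih (a + d) v hv
      exact ⟨k, by simp only [Pool.Agent.TH975.LR.hv, List.mem_append]; exact Or.inr hk, rfl⟩

/-- the linear recurrence sequence `k ↦ Σ_i P_i(k) z_i ^ k` -/
noncomputable def rec {h : ℕ} (z : Fin h → ℂ) (P : Fin h → ℂ[X]) (k : ℤ) : ℂ :=
  ∑ i, (P i).eval (k : ℂ) * z i ^ k

theorem pw_exp (c : ℂ) (k : ℤ) : pw c (Real.exp k) = Complex.exp c ^ k := by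
  unfold pw
  rw [Real.log_exp, mul_comm, ← Complex.exp_int_mul]
  push_cast
  rfl

theorem pw_exp_nat (c : ℂ) (d : ℕ) : pw c (Real.exp d) = Complex.exp c ^ d := by
  unfold pw
  rw [Real.log_exp, mul_comm, ← Complex.exp_nat_mul]
  push_cast
  rfl

theorem pw_one (c : ℂ) : pw c 1 = 1 := by
  unfold pw
  rw [Real.log_one]; simp

theorem ev_rec {h : ℕ} (z : Fin h → ℂ) (hz : ∀ i, z i ≠ 0) (c : Fin h → ℂ)
    (hc : Function.Injective c) (hcz : ∀ i, Complex.exp (c i) = z i) (P : Fin h → ℂ[X]) (k : ℤ) :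
    ev (Finset.univ.image c) (Function.extend c P 0) (Real.exp k) = rec z P k := by
  unfold ev rec
  rw [Finset.sum_image (fun i _ j _ hij => hc hij)]
  apply Finset.sum_congr rfl
  intro i _
  rw [hc.extend_apply, pw_exp, hcz, Real.log_exp]
  push_cast
  rfl

/-- the exceptional case -/
def ExcR {h : ℕ} (z : Fin h → ℂ) (P : Fin h → ℂ[X]) : Prop :=
  ∀ i, P i ≠ 0 → IsAlgebraic ℚ (z i) ∧ ∀ m, (P i).coeff m ∈ LL

theorem int_QB (k : ℤ) : (k : ℂ) ∈ QB := by
  rw [mem_QB]; exact_mod_cast isAlgebraic_intCast (R := ℚ) (A := ℂ) k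

theorem excR_mem {h : ℕ} (z : Fin h → ℂ) (P : Fin h → ℂ[X]) (hE : ExcR z P) (k : ℤ) :
    rec z P k ∈ LL := by
  unfold rec
  apply Submodule.sum_mem
  intro i _
  by_cases hi : P i = 0
  · rw [hi, eval_zero, zero_mul]; exact LL.zero_mem
  obtain ⟨h1, h2⟩ := hE i hi
  rw [mul_comm, eval_eq_sum_range]
  apply LL_mul (zpow_mem (mem_QB.2 h1) k)
  apply Submodule.sum_mem
  intro m _
  rw [mul_comm]
  exact LL_mul (pow_mem (int_QB k) _) (h2 m)

theorem lrs_cube {h : ℕ} (z : Fin h → ℂ) (hz : ∀ i, z i ≠ 0)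
    (hnd : ∀ i j, i ≠ j → ∀ d : ℕ, 1 ≤ d → z i ^ d ≠ z j ^ d) (P : Fin h → ℂ[X]) {R : ℕ}
    (hR : ∑ i, ((P i).natDegree + 1) ≤ R) (hne : ¬ ExcR z P) (ds : List ℕ)
    (hlen : KM R ≤ ds.length) (hds : ∀ d ∈ ds, 1 ≤ d) (a : ℤ) :
    ∃ k ∈ Pool.Agent.TH975.LR.hv ds a, rec z P k ∉ LL := by
  classical
  obtain ⟨c, hcd⟩ : ∃ c : Fin h → ℂ, c = fun i => Complex.log (z i) := ⟨_, rfl⟩
  have hcz : ∀ i, Complex.exp (c i) = z i := fun i => by rw [hcd]; exact Complex.exp_log (hz i)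
  have hc : Function.Injective c := by
    intro i j hij
    by_contra hne
    apply hnd i j hne 1 le_rfl
    rw [pow_one, pow_one, ← hcz, ← hcz, hij]
  have hQ : ∀ i, Function.extend c P 0 (c i) = P i := fun i => hc.extend_apply P 0 i
  have hWR : W (Finset.univ.image c) (Function.extend c P 0) ≤ ∑ i, ((P i).natDegree + 1) := by
    unfold W
    rw [Finset.sum_image (fun i _ j _ hij => hc hij)]
    apply Finset.sum_le_sum
    intro i _
    rw [hc.extend_apply]
    by_cases h0 : P i = 0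
    · rw [h0, wt_zero]; omega
    · rw [wt_of_ne h0]
  have hK := le_KM (hWR.trans hR)
  have hlen' : (sd ds).length = ds.length := List.length_map ..
  have hsep : ∀ j, ∀ e ∈ sd ds, Sep (Finset.univ.image c) (c j) e := by
    intro j e he c1 hc1 hne h
    obtain ⟨d, hd, rfl⟩ := List.mem_map.1 he
    obtain ⟨i, -, rfl⟩ := Finset.mem_image.1 hc1
    simp only [pw_one, pw_exp_nat, mul_one, hcz] at h
    exact hnd j i (fun hij => hne (by rw [hij])) d (hds d hd) h
  have hne1 : ∀ d ∈ ds, (1 : ℝ) ≠ Real.exp (d : ℝ) := by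
    intro d hd h
    have h1 : (0 : ℝ) < d := by exact_mod_cast hds d hd
    have := Real.one_lt_exp_iff.2 h1
    linarith
  have key : ∃ v ∈ vals (sd ds) (Real.exp a),
      ev (Finset.univ.image c) (Function.extend c P 0) v ∉ LL := by
    by_cases h1 : ∃ j, P j ≠ 0 ∧ ¬ IsAlgebraic ℚ (z j)
    · obtain ⟨j, hj, hzj⟩ := h1
      refine core_a (Finset.univ.image c) (Function.extend c P 0)
        (Finset.mem_image_of_mem c (Finset.mem_univ j)) (by rw [hQ]; exact hj) (sd ds) ?_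
        (hsep j) (by omega) _ (Real.exp_pos _)
      intro e he
      obtain ⟨d, hd, rfl⟩ := List.mem_map.1 he
      refine ⟨one_pos, Real.exp_pos _, hne1 d hd, ?_⟩
      simp only [pw_one, pw_exp_nat, div_one, hcz]
      intro h
      exact hzj (h.of_pow (hds d hd))
    · push Not at h1
      obtain ⟨j, hj, m0, hm0⟩ : ∃ j, P j ≠ 0 ∧ ∃ m, (P j).coeff m ∉ LL := by
        by_contra h2
        push Not at h2
        exact hne fun i hi => ⟨h1 i hi, h2 i hi⟩
      -- the last bad coefficient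
      let s : Finset ℕ := (Finset.range ((P j).natDegree + 1)).filter fun m => (P j).coeff m ∉ LL
      have hs : s.Nonempty := ⟨m0, Finset.mem_filter.2 ⟨Finset.mem_range.2 (by
        by_contra h2
        apply hm0
        rw [coeff_eq_zero_of_natDegree_lt (by omega)]
        exact LL.zero_mem), hm0⟩⟩
      have hB : Bm (P j) (s.max' hs) := by
        refine ⟨(Finset.mem_filter.1 (s.max'_mem hs)).2, fun i hi => ?_⟩
        by_contra h2
        have h3 : i ∈ s := Finset.mem_filter.2 ⟨Finset.mem_range.2 (by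
          by_contra h4
          apply h2
          rw [coeff_eq_zero_of_natDegree_lt (by omega)]
          exact LL.zero_mem), h2⟩
        have := s.le_max' i h3
        omega
      refine core_d (Finset.univ.image c) (fun c => IsAlgebraic ℚ (Complex.exp c))
        (Finset.mem_image_of_mem c (Finset.mem_univ j)) _ (Function.extend c P 0) le_rfl ?_
        (s.max' hs) (by rw [hQ]; exact hB) (sd ds) ?_ (by omega) (Real.exp a) ?_
      · intro x hx hne
        obtain ⟨i, -, rfl⟩ := Finset.mem_image.1 hx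
        rw [hQ] at hne
        show IsAlgebraic ℚ (Complex.exp (c i))
        rw [hcz]
        exact h1 i hne
      · intro e he
        have hse := hsep j e he
        obtain ⟨d, hd, rfl⟩ := List.mem_map.1 he
        refine ⟨⟨one_pos, ?_, ?_⟩, ⟨Real.exp_pos _, ?_, ?_⟩, hne1 d hd, hse⟩
        · rw [Real.log_one]; simpa using nat_QB 0
        · intro x _ _
          simp only [pw_one]
          exact one_mem _
        · rw [Real.log_exp]
          exact_mod_cast nat_QB d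
        · intro x _ hx
          simp only [pw_exp_nat]
          exact pow_mem (mem_QB.2 hx) d
      · refine ⟨Real.exp_pos _, ?_, ?_⟩
        · rw [Real.log_exp]
          exact_mod_cast int_QB a
        · intro x _ hx
          rw [pw_exp]
          exact zpow_mem (mem_QB.2 hx) a
  obtain ⟨v, hv, hvL⟩ := key
  obtain ⟨k, hk, rfl⟩ := vals_hv ds a v hv
  exact ⟨k, hk, by rw [ev_rec z hz c hc hcz] at hvL; exact hvL⟩

open Classical in
/-- **The zero-one law for linear recurrence sequences.** -/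
theorem lrs (R : ℕ) {h : ℕ} (z : Fin h → ℂ) (hz : ∀ i, z i ≠ 0)
    (hnd : ∀ i j, i ≠ j → ∀ d : ℕ, 1 ≤ d → z i ^ d ≠ z j ^ d) (P : Fin h → ℂ[X])
    (hR : ∑ i, ((P i).natDegree + 1) ≤ R) (hne : ¬ ExcR z P) (M : ℤ) (N : ℕ) :
    (((Finset.Ioc M (M + N)).filter fun k => rec z P k ∈ LL).card : ℝ) ≤
      4 * (N : ℝ) ^ (1 - 1 / 2 ^ (KM R) : ℝ) := by
  by_contra hcon
  push Not at hcon
  obtain ⟨a, ds, h1, h2, h3⟩ := hilbert (KM R) _ M N (Finset.filter_subset _ _) hcon
  obtain ⟨k, hk, hkL⟩ := lrs_cube z hz hnd P hR hne ds (by omega) h2 a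
  exact hkL (Finset.mem_filter.1 (h3 k hk)).2

end Pool.Agent.TH975.EC
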